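import Pool.Agent.Lib.MP_c50dba_nt.Gen.Uniform
import Pool.Agent.Lib.MP_c50dba_nt.Gen.Core
import Pool.Agent.Lib.MP_c50dba_nt.Gen.Baker
import Pool.Agent.Lib.MP_c50dba_nt.Gen.Cube
import Pool.Agent.Lib.MP_c50dba_nt.Gen.Lin
import Pool.Agent.Lib.MP_c50dba_nt.Gen.Multi
import Pool.Agent.Lib.MP_c50dba_nt.Gen.Point
import Pool.Agent.Lib.MP_c50dba_nt.Gen.Moments
import Pool.Agent.Lib.MP_c50dba_nt.Gen.Schwarz
import Pool.Agent.Lib.MP_c50dba_nt.Gen.PrimeLogs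
import Pool.Agent.Lib.MP_c50dba_nt.Gen.Density
import Pool.Agent.Lib.MP_c50dba_nt.Gen.Box
import Pool.Agent.Lib.MP_c50dba_nt.Gen.Primes
import Pool.Agent.Lib.MP_c50dba_nt.Gen.Sieve

set_option autoImplicit false

/-!
Bounded degree form of the p-adic Schanuel conjecture for logarithms, for almost all tuples of
positive integers, uniformly in the prime, in the start tuple and in shifts and multipliers.
-/

namespace Pool.Agent.Results.MP_c50dba_nt.AlmostAllTuples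

open Pool.Agent.Lib.MP_c50dba_nt.Gen Pool.Agent.Lib.MP_c50dba_nt.Gen.U

theorem result (s r d : ℕ) (ε : ℝ) (hε : 0 < ε) : ∃ N₀ : ℕ, ∀ N : ℕ, N₀ ≤ N →
    ∀ (p : ℕ) [Fact p.Prime] (L : PadicAlgCl p → PadicAlgCl p),
    (∀ x y : PadicAlgCl p, x ≠ 0 → y ≠ 0 → L (x * y) = L x + L y) →
    L (p : PadicAlgCl p) = 0 →
    (∀ x : PadicAlgCl p, ‖x‖ < 1 →
      L (1 + x) = ∑' n : ℕ, (-1 : PadicAlgCl p) ^ n * x ^ (n + 1) / ((n : PadicAlgCl p) + 1)) →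
    ∀ t : Fin s → PadicAlgCl p,
      (∀ P : MvPolynomial (Fin s) (PadicAlgCl p), P ≠ 0 → (∀ i, P.degreeOf i ≤ d) →
        (∀ m, IsAlgebraic ℚ (P.coeff m)) → MvPolynomial.eval t P ≠ 0) →
    ∀ y u : Fin r → PadicAlgCl p, (∀ i, u i ≠ 0) →
      (({a : Fin r → ℕ | (∀ i, 1 ≤ a i ∧ a i ≤ N) ∧
        ∃ P : MvPolynomial (Fin (s + r)) (PadicAlgCl p), P ≠ 0 ∧ (∀ i, P.degreeOf i ≤ d) ∧
          (∀ m, IsAlgebraic ℚ (P.coeff m)) ∧
          MvPolynomial.eval (Fin.append t (fun i => y i + u i * L (a i : PadicAlgCl p))) P = 0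
        }.ncard : ℕ) : ℝ) ≤ ε * (N : ℝ) ^ r := by
  obtain ⟨N₀, h⟩ := stUniform (stCube stPoint stMulti stLin) (stDensity stBox stPrimes stSieve)
    (stBaker (stCore stSchwarz stMoments)) stPrimeLogs s r d ε hε
  exact ⟨N₀, fun N hN p _ L h1 h2 h3 t ht y u hu => h N hN p L ⟨h1, h2, h3⟩ t ht y u hu⟩

end Pool.Agent.Results.MP_c50dba_nt.AlmostAllTuples
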