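import Pool.Agent.Lib.MP_c50dba_nt.RD.ProjU
import Pool.Agent.Lib.MP_c50dba_nt.RD.OverPrime
import Pool.Agent.Lib.MP_c50dba_nt.RD.OverInf
import Pool.Agent.Lib.MP_c50dba_nt.RD.Ufd
import Pool.Agent.Lib.MP_c50dba_nt.RD.Gauss
import Pool.Agent.Lib.MP_c50dba_nt.RD.Dep
import Pool.Agent.Lib.MP_c50dba_nt.RD.Rank
import Pool.Agent.Lib.MP_c50dba_nt.RD.ExtrapI
import Pool.Agent.Lib.MP_c50dba_nt.RD.UpperI
import Pool.Agent.Lib.MP_c50dba_nt.RD.MomentsI
import Pool.Agent.Lib.MP_c50dba_nt.RD.CoreI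
import Pool.Agent.Lib.MP_c50dba_nt.RD.BakerI
import Pool.Agent.Lib.MP_c50dba_nt.EX.ExcN84
import Pool.Agent.Lib.MP_c50dba_nt.EX.DepN74
import Pool.Agent.Lib.MP_c50dba_nt.EX.FamUN74
import Pool.Agent.Lib.MP_c50dba_nt.EX.Final83

set_option autoImplicit false

/-!
The elements of a group whose logarithm has a homogeneous relation of degree `d` with a number
`w`, which is `1` or a logarithm, with given logarithms and with given further numbers lie in at
most `C` cosets of subgroups of small rank; `C` depends only on the degree and on the numbers of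
elements. For one given logarithm the rank is at most about `2 * sqrt d`.
-/

namespace Pool.Agent.Results.MP_c50dba_nt.ExceptionalRank

open Pool.Agent.Lib.MP_c50dba_nt Pool.Agent.Lib.MP_c50dba_nt.Gen Pool.Agent.Lib.MP_c50dba_nt.RD
open Pool.Agent.Lib.MP_c50dba_nt.EX

theorem result (r q d M : ℕ) (hd : 1 ≤ d) :
    ∃ C : ℕ, ∀ (p : ℕ) [Fact p.Prime] (L : PadicAlgCl p → PadicAlgCl p),
      (∀ x y : PadicAlgCl p, x ≠ 0 → y ≠ 0 → L (x * y) = L x + L y) →
      L (p : PadicAlgCl p) = 0 →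
      (∀ x : PadicAlgCl p, ‖x‖ < 1 → L (1 + x) =
        ∑' n : ℕ, (-1 : PadicAlgCl p) ^ n * x ^ (n + 1) / ((n : PadicAlgCl p) + 1)) →
      ∀ a : Fin M → PadicAlgCl p, (∀ i, a i ≠ 0 ∧ IsAlgebraic ℚ (a i)) →
      ∀ b : Fin r → PadicAlgCl p, (∀ j, b j ≠ 0 ∧ IsAlgebraic ℚ (b j)) →
      ∀ (t : Fin q → PadicAlgCl p) (w : PadicAlgCl p) (ε : ℕ),
      ((ε = 0 ∧ w = 1 ∧ LinearIndependent ℚ
          (Fin.append (fun j => L (b j)) (fun i => L (a i)) : Fin (r + M) → PadicAlgCl p)) ∨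
        (ε = 1 ∧ ∃ b₀, b₀ ≠ 0 ∧ IsAlgebraic ℚ b₀ ∧ w = L b₀ ∧ LinearIndependent ℚ
          (Fin.cons (L b₀) (Fin.append (fun j => L (b j)) (fun i => L (a i))) :
            Fin (r + M + 1) → PadicAlgCl p))) →
      ((r = 1 ∧ q = 0) ∨ AlgebraicIndependent ℚ (fun j : Fin (r + q) =>
        (Fin.append (fun j => L (b j)) t : Fin (r + q) → PadicAlgCl p) j / w)) →
      ∀ y : PadicAlgCl p,
      ∃ E : Finset ((Fin M → ℤ) × AddSubgroup (Fin M → ℤ)), E.card ≤ C ∧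
        (∀ e ∈ E, ∀ m, 1 ≤ m →
          Module.finrank ℤ e.2 + r + 1 + (m - 1) * ((Module.finrank ℤ e.2 + r + ε) ^ 2 / 4) ≤
            (r + q + m * d).choose (m * d)) ∧
        (y = 0 → ∀ e ∈ E, e.1 = 0) ∧
        ∀ k : Fin M → ℤ,
          (∃ P : MvPolynomial (Fin (r + q + 2)) (PadicAlgCl p), P ≠ 0 ∧ P.IsHomogeneous d ∧
            (∀ m, IsAlgebraic ℚ (P.coeff m)) ∧
            MvPolynomial.eval (Fin.cons (y + L (∏ i, a i ^ k i))
              (Fin.cons w (Fin.append (fun j => L (b j)) t))) P = 0) →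
          ∃ e ∈ E, k - e.1 ∈ e.2 :=
  excN_84 (famUN_74 stOverPrime stOverInf (depN_74 stUfd stGaussUp stGaussLow))
    stRank (stBakerI (stCoreI (stUpperI stExtrapI) stMomentsI)) growth_all_83 r q d M hd

end Pool.Agent.Results.MP_c50dba_nt.ExceptionalRank
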