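import Pool.Agent.Lib.MP_c50dba_nt.EX.Final83

set_option autoImplicit false

/-!
Products of a space of logarithms with arbitrary finite dimensional spaces.
-/

namespace Pool.Agent.Results.MP_c50dba_nt.Expansion

theorem result (p : ℕ) [Fact p.Prime] (L : PadicAlgCl p → PadicAlgCl p)
    (hmul : ∀ x y : PadicAlgCl p, x ≠ 0 → y ≠ 0 → L (x * y) = L x + L y)
    (hLp : L (p : PadicAlgCl p) = 0)
    (hser : ∀ x : PadicAlgCl p, ‖x‖ < 1 →
      L (1 + x) = ∑' n : ℕ, (-1 : PadicAlgCl p) ^ n * x ^ (n + 1) / ((n : PadicAlgCl p) + 1))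
    (n : ℕ) (hn : 1 ≤ n) (a : Fin n → PadicAlgCl p)
    (ha : ∀ i, a i ≠ 0 ∧ IsAlgebraic ℚ (a i))
    (hind : LinearIndependent ℚ (fun i => L (a i)))
    (U : Submodule (algebraicClosure ℚ (PadicAlgCl p)) (PadicAlgCl p))
    (hU : FiniteDimensional (algebraicClosure ℚ (PadicAlgCl p)) U)
    (d : ℕ) (hd : d ≤ Module.finrank (algebraicClosure ℚ (PadicAlgCl p)) U) :
    Module.finrank (algebraicClosure ℚ (PadicAlgCl p)) U + d * n ≤
      Module.finrank (algebraicClosure ℚ (PadicAlgCl p))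
        (U * Submodule.span (algebraicClosure ℚ (PadicAlgCl p)) (Set.range (fun i => L (a i))) :
          Submodule (algebraicClosure ℚ (PadicAlgCl p)) (PadicAlgCl p)) + d * d := by
  refine Pool.Agent.Lib.MP_c50dba_nt.EX.growth_all_83 p L hmul hLp hser n hn a
    (fun i => (ha i).1) (fun i => (ha i).2) ?_ U d hd
  intro c hc
  have h1 := Fintype.linearIndependent_iff.mp hind (fun i => (c i : ℚ)) (by
    rw [← hc]
    apply Finset.sum_congr rfl
    intro i _
    rw [Algebra.smul_def, map_intCast])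
  funext i
  exact_mod_cast h1 i

end Pool.Agent.Results.MP_c50dba_nt.Expansion
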