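import Pool.Agent.Lib.MP_c50dba_nt.BX.FinalV83

set_option autoImplicit false

/-!
Tuples of logarithms without algebraic relations of bounded degree: it is enough that at each step
the set of conjugates contains a sum of many independent arrays with zero line sums.
-/

namespace Pool.Agent.Results.MP_c50dba_nt.GaloisArrays

open Pool.Agent.Lib.MP_c50dba_nt.BX

theorem result : ∃ m₀ : ℕ → ℕ → (h : ℕ) → (r : Fin h → ℕ) → ((i : Fin h) → Fin (r i) → ℕ) → ℕ,
    (∀ (N h m : ℕ) (r : Fin h → ℕ) (q : (i : Fin h) → Fin (r i) → ℕ), (∀ i s, 2 ≤ q i s) →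
      N ^ 2 + N ≤ h * m → m₀ N 1 h r q ≤ m) ∧
    (∀ (N d h : ℕ) (r : Fin h → ℕ) (q : (i : Fin h) → Fin (r i) → ℕ), (∀ i s, 2 ≤ q i s) →
      d * N ^ 2 * (d + 1) ^ 2 ≤ h → m₀ N d h r q ≤ 1) ∧
    ∀ (p : ℕ) [Fact p.Prime] (L : PadicAlgCl p → PadicAlgCl p),
      (∀ x y : PadicAlgCl p, x ≠ 0 → y ≠ 0 → L (x * y) = L x + L y) →
      L (p : PadicAlgCl p) = 0 →
      (∀ x : PadicAlgCl p, ‖x‖ < 1 → L (1 + x) =
        ∑' n : ℕ, (-1 : PadicAlgCl p) ^ n * x ^ (n + 1) / ((n : PadicAlgCl p) + 1)) →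
      ∀ (N : ℕ) (f : Fin N → PadicAlgCl p),
      LinearIndependent (algebraicClosure ℚ (PadicAlgCl p)) f →
      ∀ (n : ℕ) (d h m : Fin n → ℕ) (r : (j : Fin n) → Fin (h j) → ℕ)
        (q : (j : Fin n) → (i : Fin (h j)) → Fin (r j i) → ℕ) (D : (j : Fin n) → Fin (h j) → ℕ),
      (∀ j i, (D j i - 1) * ∏ s, q j i s < 2 ^ r j i * ∏ s, (q j i s - 1)) →
      (∀ j, d j < ∏ i, (D j i + 1) ∧
        m₀ (N * ∏ i ∈ Finset.univ.filter (fun i => i < j), (d i + 1)) (d j) (h j) (r j) (q j) ≤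
          m j) →
      ∀ a y u : Fin n → PadicAlgCl p, (∀ j, a j ≠ 0 ∧ IsAlgebraic ℚ (a j) ∧ u j ≠ 0) →
      (∀ j, ∃ (z : ((i : Fin (h j)) → (s : Fin (r j i)) → Fin (q j i s)) → PadicAlgCl p)
          (v : (i : Fin (h j)) → Fin (m j) → ((s : Fin (r j i)) → Fin (q j i s)) →
            PadicAlgCl p),
        (∀ i l s t, ∑ b : Fin (q j i s), v i l (Function.update t s b) = 0) ∧
        LinearIndependent ℚ
          (fun x : (i : Fin (h j)) × (Fin (m j) × ((s : Fin (r j i)) → Fin (q j i s - 1))) =>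
            v x.1 x.2.1 (fun s => Fin.castLE (Nat.sub_le (q j x.1 s) 1) (x.2.2 s))) ∧
        ∀ (S : Finset (Fin (h j))) (c : Fin (h j) → Fin (m j))
          (t : (i : Fin (h j)) → (s : Fin (r j i)) → Fin (q j i s)),
          ∃ σ : PadicAlgCl p ≃ₐ[ℚ_[p]] PadicAlgCl p,
            (∀ k, σ (f k) = f k) ∧
            (∀ i, i < j → σ (y i + u i * L (a i)) = y i + u i * L (a i)) ∧
            σ (y j) = y j ∧ σ (u j) = u j ∧
            σ (L (a j)) = z t + ∑ i ∈ S, v i (c i) (t i)) →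
      LinearIndependent (algebraicClosure ℚ (PadicAlgCl p))
        (fun x : Fin N × ((j : Fin n) → Fin (d j + 1)) =>
          f x.1 * ∏ j, (y j + u j * L (a j)) ^ (x.2 j : ℕ)) := by
  refine ⟨sideV83, fun N h m r q hq hm => sideV_one83 N h m r q hq hm,
    fun N d h r q hq hh => sideV_cube83 N d h r q hq hh, ?_⟩
  intro p _ L hmul hp hser N f hf n d h m r q D hD hdh a y u ha hbox
  exact iterV83 finV_all83 p L ⟨hmul, hp, hser⟩ N f hf n d h m r q D hD hdh a y u ha hbox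

end Pool.Agent.Results.MP_c50dba_nt.GaloisArrays
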